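import Mathlib

set_option autoImplicit false

open Polynomial Finset

namespace Pool.Agent.Results.MP_90c6bd_nt.PolynomialFamilies

/-- Length of an integer polynomial: the sum of the absolute values of its coefficients. -/
def len (P : ℤ[X]) : ℤ := P.sum (fun _ a => |a|)

theorem len_range (P : ℤ[X]) (N : ℕ) (h : P.natDegree < N) :
    len P = ∑ i ∈ range N, |P.coeff i| := by
  unfold len
  exact Polynomial.sum_over_range' P (fun _ => by simp) N h

theorem len_nonneg (P : ℤ[X]) : 0 ≤ len P := by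
  rw [len_range P _ (Nat.lt_succ_self _)]
  exact Finset.sum_nonneg fun _ _ => abs_nonneg _

theorem len_zero : len 0 = 0 := by simp [len]

theorem len_add (P Q : ℤ[X]) : len (P + Q) ≤ len P + len Q := by
  set N := max P.natDegree Q.natDegree + 1 with hN
  have h1 : P.natDegree < N := by omega
  have h2 : Q.natDegree < N := by omega
  have h3 : (P + Q).natDegree < N := by
    have := Polynomial.natDegree_add_le P Q
    omega
  rw [len_range _ N h1, len_range _ N h2, len_range _ N h3, ← Finset.sum_add_distrib]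
  refine Finset.sum_le_sum fun i _ => ?_
  rw [Polynomial.coeff_add]
  exact abs_add_le _ _

theorem len_neg (P : ℤ[X]) : len (-P) = len P := by
  rw [len_range P (P.natDegree + 1) (Nat.lt_succ_self _),
    len_range (-P) (P.natDegree + 1) (by rw [Polynomial.natDegree_neg]; exact Nat.lt_succ_self _)]
  refine Finset.sum_congr rfl fun i _ => ?_
  rw [Polynomial.coeff_neg, abs_neg]

theorem len_sub (P Q : ℤ[X]) : len (P - Q) ≤ len P + len Q := by
  rw [sub_eq_add_neg]
  exact (len_add _ _).trans (by rw [len_neg])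

theorem len_sum {ι : Type*} (s : Finset ι) (F : ι → ℤ[X]) :
    len (∑ i ∈ s, F i) ≤ ∑ i ∈ s, len (F i) := by
  classical
  induction s using Finset.induction_on with
  | empty => simp [len_zero]
  | insert a s ha ih =>
    rw [Finset.sum_insert ha, Finset.sum_insert ha]
    exact (len_add _ _).trans (by linarith)

theorem len_C_mul (c : ℤ) (P : ℤ[X]) : len (C c * P) ≤ |c| * len P := by
  have h1 : (C c * P).natDegree < P.natDegree + 1 :=
    lt_of_le_of_lt (Polynomial.natDegree_C_mul_le c P) (Nat.lt_succ_self _)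
  rw [len_range _ _ h1, len_range P _ (Nat.lt_succ_self _), Finset.mul_sum]
  refine Finset.sum_le_sum fun i _ => ?_
  rw [Polynomial.coeff_C_mul, abs_mul]

theorem len_X_mul (P : ℤ[X]) : len (X * P) ≤ len P := by
  have h1 : (X * P).natDegree < P.natDegree + 1 + 1 := by
    have := Polynomial.natDegree_mul_le (p := (X : ℤ[X])) (q := P)
    have h2 := Polynomial.natDegree_X_le (R := ℤ)
    omega
  rw [len_range _ _ h1, Finset.sum_range_succ', len_range P _ (Nat.lt_succ_self _)]
  simp [Polynomial.coeff_X_mul]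

theorem len_X_pow_mul (k : ℕ) (P : ℤ[X]) : len (X ^ k * P) ≤ len P := by
  induction k with
  | zero => simp
  | succ k ih =>
    rw [pow_succ', mul_assoc]
    exact (len_X_mul _).trans ih

theorem len_mul (P Q : ℤ[X]) : len (P * Q) ≤ len P * len Q := by
  have h : P * Q = ∑ i ∈ range (P.natDegree + 1), C (P.coeff i) * (X ^ i * Q) := by
    conv_lhs => rw [P.as_sum_range_C_mul_X_pow]
    rw [Finset.sum_mul]
    exact Finset.sum_congr rfl fun i _ => by ring
  rw [h]
  refine (len_sum _ _).trans ?_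
  rw [len_range P _ (Nat.lt_succ_self _), Finset.sum_mul]
  refine Finset.sum_le_sum fun i _ => ?_
  refine (len_C_mul _ _).trans ?_
  exact mul_le_mul_of_nonneg_left (len_X_pow_mul _ _) (abs_nonneg _)

theorem len_prod {ι : Type*} (s : Finset ι) (F : ι → ℤ[X]) (t : ι → ℤ)
    (h : ∀ i ∈ s, len (F i) ≤ t i) :
    len (∏ i ∈ s, F i) ≤ ∏ i ∈ s, t i := by
  classical
  induction s using Finset.induction_on with
  | empty =>
    simp [len, Polynomial.sum]
    have : (1 : ℤ[X]).support ⊆ {0} := by
      intro x hx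
      rw [Polynomial.mem_support_iff, Polynomial.coeff_one] at hx
      by_contra hc
      simp at hc
      simp [hc] at hx
    calc ∑ x ∈ (1 : ℤ[X]).support, |(1 : ℤ[X]).coeff x| ≤ ∑ x ∈ ({0} : Finset ℕ), |(1 : ℤ[X]).coeff x| :=
          Finset.sum_le_sum_of_subset_of_nonneg this (fun _ _ _ => abs_nonneg _)
      _ = 1 := by simp
  | insert a s ha ih =>
    rw [Finset.prod_insert ha, Finset.prod_insert ha]
    have h1 := ih (fun i hi => h i (Finset.mem_insert_of_mem hi))
    have h2 := h a (Finset.mem_insert_self _ _)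
    calc len (F a * ∏ i ∈ s, F i) ≤ len (F a) * len (∏ i ∈ s, F i) := len_mul _ _
      _ ≤ t a * ∏ i ∈ s, t i :=
        mul_le_mul h2 h1 (len_nonneg _) ((len_nonneg _).trans h2)

theorem len_derivative (P : ℤ[X]) (d : ℕ) (hd : P.natDegree ≤ d) :
    len (derivative P) ≤ d * len P := by
  have h1 : (derivative P).natDegree < d + 1 := by
    have := Polynomial.natDegree_derivative_le P
    omega
  rw [len_range _ _ h1, len_range P (d + 1 + 1) (by omega), Finset.sum_range_succ' _ (d + 1)]
  have h3 : ∀ i ∈ range (d + 1), |(derivative P).coeff i| ≤ d * |P.coeff (i + 1)| := by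
    intro i hi
    rw [Polynomial.coeff_derivative, abs_mul]
    by_cases h : i + 1 ≤ d
    · have : |((i : ℤ) + 1)| ≤ d := by
        rw [abs_of_nonneg (by positivity)]
        exact_mod_cast h
      calc |P.coeff (i + 1)| * |(i : ℤ) + 1| ≤ |P.coeff (i + 1)| * d :=
            mul_le_mul_of_nonneg_left this (abs_nonneg _)
        _ = _ := by ring
    · have : P.coeff (i + 1) = 0 := Polynomial.coeff_eq_zero_of_natDegree_lt (by omega)
      rw [this]
      simp
  calc ∑ i ∈ range (d + 1), |(derivative P).coeff i|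
      ≤ ∑ i ∈ range (d + 1), (d : ℤ) * |P.coeff (i + 1)| := Finset.sum_le_sum h3
    _ = d * ∑ i ∈ range (d + 1), |P.coeff (i + 1)| := by rw [Finset.mul_sum]
    _ ≤ d * (∑ k ∈ range (d + 1), |P.coeff (k + 1)| + |P.coeff 0|) := by
        apply mul_le_mul_of_nonneg_left _ (by positivity)
        linarith [abs_nonneg (P.coeff 0)]

theorem abs_lead_le_len (P : ℤ[X]) : |P.leadingCoeff| ≤ len P := by
  rw [len_range P _ (Nat.lt_succ_self _), Polynomial.leadingCoeff]
  exact Finset.single_le_sum (f := fun i => |P.coeff i|) (fun _ _ => abs_nonneg _)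
    (Finset.mem_range.2 (Nat.lt_succ_self _))

/-- The main term estimate. -/
theorem lead_approx (P : ℤ[X]) (x : ℝ) (hx : 1 ≤ x) :
    |aeval x P - P.leadingCoeff * x ^ P.natDegree| * x ≤ len P * x ^ P.natDegree := by
  have h1 : aeval x P - P.leadingCoeff * x ^ P.natDegree
      = ∑ i ∈ range P.natDegree, (P.coeff i : ℝ) * x ^ i := by
    rw [Polynomial.aeval_eq_sum_range, Finset.sum_range_succ]
    simp only [zsmul_eq_mul, Polynomial.coeff_natDegree]
    ring
  rw [h1]
  have hx0 : 0 ≤ x := by linarith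
  calc |∑ i ∈ range P.natDegree, (P.coeff i : ℝ) * x ^ i| * x
      ≤ (∑ i ∈ range P.natDegree, |(P.coeff i : ℝ) * x ^ i|) * x :=
        mul_le_mul_of_nonneg_right (Finset.abs_sum_le_sum_abs _ _) hx0
    _ = ∑ i ∈ range P.natDegree, |(P.coeff i : ℝ)| * x ^ (i + 1) := by
        rw [Finset.sum_mul]
        refine Finset.sum_congr rfl fun i _ => ?_
        rw [abs_mul, abs_of_nonneg (pow_nonneg hx0 i)]
        ring
    _ ≤ ∑ i ∈ range P.natDegree, |(P.coeff i : ℝ)| * x ^ P.natDegree := by
        refine Finset.sum_le_sum fun i hi => ?_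
        apply mul_le_mul_of_nonneg_left _ (abs_nonneg _)
        exact pow_le_pow_right₀ hx (Finset.mem_range.1 hi)
    _ = (∑ i ∈ range P.natDegree, |(P.coeff i : ℝ)|) * x ^ P.natDegree := by
        rw [Finset.sum_mul]
    _ ≤ len P * x ^ P.natDegree := by
        apply mul_le_mul_of_nonneg_right _ (pow_nonneg hx0 _)
        rw [len_range P _ (Nat.lt_succ_self _)]
        push_cast
        rw [Finset.sum_range_succ]
        linarith [abs_nonneg (P.coeff P.natDegree : ℝ)]

theorem aeval_lower (P : ℤ[X]) (x : ℝ) (hx : 1 ≤ x) (hx2 : 2 * (len P : ℝ) ≤ x)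
    (hl : 0 < P.leadingCoeff) : x ^ P.natDegree / 2 ≤ aeval x P := by
  have h := lead_approx P x hx
  have hx0 : 0 < x := by linarith
  have hp : 0 < x ^ P.natDegree := pow_pos hx0 _
  have h2 : |aeval x P - P.leadingCoeff * x ^ P.natDegree| ≤ x ^ P.natDegree / 2 := by
    have : |aeval x P - P.leadingCoeff * x ^ P.natDegree| * x ≤ (x ^ P.natDegree / 2) * x := by
      refine h.trans ?_
      nlinarith
    exact le_of_mul_le_mul_right this hx0
  have h3 := (abs_le.1 h2).1
  have h4 : (1 : ℝ) ≤ P.leadingCoeff := by exact_mod_cast hl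
  nlinarith

theorem aeval_upper (P : ℤ[X]) (x : ℝ) (hx : 1 ≤ x) :
    |aeval x P| ≤ len P * x ^ P.natDegree := by
  have hx0 : 0 ≤ x := by linarith
  rw [Polynomial.aeval_eq_sum_range, len_range P _ (Nat.lt_succ_self _)]
  push_cast
  rw [Finset.sum_mul]
  refine (Finset.abs_sum_le_sum_abs _ _).trans (Finset.sum_le_sum fun i hi => ?_)
  rw [zsmul_eq_mul, abs_mul, abs_of_nonneg (pow_nonneg hx0 i)]
  apply mul_le_mul_of_nonneg_left _ (abs_nonneg _)
  exact pow_le_pow_right₀ hx (Nat.lt_succ_iff.1 (Finset.mem_range.1 hi))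

/-- Logarithm of a polynomial with positive leading coefficient at a large point. -/
theorem log_approx (P : ℤ[X]) (x T : ℝ) (hx : 1 ≤ x) (hT : (len P : ℝ) ≤ T) (hx2 : 2 * T ≤ x)
    (hl : 0 < P.leadingCoeff) :
    |Real.log (aeval x P) - (Real.log P.leadingCoeff + P.natDegree * Real.log x)| ≤ 2 * T / x := by
  have hx0 : 0 < x := by linarith
  have hp : 0 < x ^ P.natDegree := pow_pos hx0 _
  have h4 : (1 : ℝ) ≤ P.leadingCoeff := by exact_mod_cast hl
  have hT0 : 0 ≤ T := le_trans (by exact_mod_cast len_nonneg P) hT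
  set m : ℝ := P.leadingCoeff * x ^ P.natDegree with hm
  have hm0 : 0 < m := by positivity
  have hval : 0 < aeval x P :=
    lt_of_lt_of_le (by positivity) (aeval_lower P x hx (by linarith) hl)
  have h := lead_approx P x hx
  rw [← hm] at h
  have h5 : |aeval x P - m| ≤ (T / x) * m := by
    have h6 : |aeval x P - m| * x ≤ ((T / x) * m) * x := by
      refine h.trans ?_
      have : (T / x * m) * x = T * m := by field_simp
      rw [this]
      calc (len P : ℝ) * x ^ P.natDegree ≤ T * x ^ P.natDegree :=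
            mul_le_mul_of_nonneg_right hT hp.le
        _ ≤ T * m := by
            apply mul_le_mul_of_nonneg_left _ hT0
            rw [hm]
            nlinarith
    exact le_of_mul_le_mul_right h6 hx0
  have hlogm : Real.log m = Real.log P.leadingCoeff + P.natDegree * Real.log x := by
    rw [hm, Real.log_mul (by positivity) (by positivity), Real.log_pow]
  rw [← hlogm, ← Real.log_div hval.ne' hm0.ne']
  set r : ℝ := aeval x P / m with hr
  have hr0 : 0 < r := div_pos hval hm0
  have h7 : |r - 1| ≤ T / x := by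
    have : r - 1 = (aeval x P - m) / m := by rw [hr]; field_simp
    rw [this, abs_div, abs_of_pos hm0, div_le_iff₀ hm0]
    exact h5
  have hδ : T / x ≤ 1 / 2 := by
    rw [div_le_div_iff₀ hx0 (by norm_num)]
    linarith
  have hTx : 0 ≤ T / x := by positivity
  have h8 := abs_le.1 h7
  rw [abs_le]
  have e1 : 2 * T / x = 2 * (T / x) := by ring
  rw [e1]
  constructor
  · have h9 := Real.one_sub_inv_le_log_of_pos hr0
    have h10 : r⁻¹ ≤ 1 + 2 * (T / x) := by
      rw [inv_le_comm₀ hr0 (by positivity)]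
      have : (1 + 2 * (T / x))⁻¹ ≤ 1 - T / x := by
        rw [inv_le_comm₀ (by positivity) (by linarith)]
        rw [inv_le_iff_one_le_mul₀ (by linarith)]
        nlinarith
      linarith [h8.1]
    linarith
  · have h9 := Real.log_le_sub_one_of_pos hr0
    linarith [h8.2]

variable {n : ℕ}

/-- The linear form along the family, as a function of a real variable. -/
noncomputable def Lam (f g : Fin n → ℤ[X]) (b : Fin n → ℤ) (x : ℝ) : ℝ :=
  ∑ j, (b j : ℝ) * (Real.log (aeval x (f j)) - Real.log (aeval x (g j)))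

/-- Numerator of the derivative of `Lam`. -/
noncomputable def Num (f g : Fin n → ℤ[X]) (b : Fin n → ℤ) : ℤ[X] :=
  ∑ j, C (b j) * (derivative (f j) * g j - f j * derivative (g j)) *
    ∏ i ∈ univ.erase j, (f i * g i)

theorem hasDerivAt_Lam (f g : Fin n → ℤ[X]) (b : Fin n → ℤ) (x : ℝ)
    (hf : ∀ j, aeval x (f j) ≠ 0) (hg : ∀ j, aeval x (g j) ≠ 0) :
    HasDerivAt (Lam f g b) (aeval x (Num f g b) / ∏ i, (aeval x (f i) * aeval x (g i))) x := by
  have h1 : HasDerivAt (Lam f g b) (∑ j, (b j : ℝ) * (aeval x (derivative (f j)) / aeval x (f j)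
      - aeval x (derivative (g j)) / aeval x (g j))) x := by
    unfold Lam
    apply HasDerivAt.fun_sum
    intro j _
    apply HasDerivAt.const_mul
    exact ((Polynomial.hasDerivAt_aeval (f j) x).log (hf j)).sub
      ((Polynomial.hasDerivAt_aeval (g j) x).log (hg j))
  convert h1 using 1
  unfold Num
  rw [map_sum, Finset.sum_div]
  refine Finset.sum_congr rfl fun j _ => ?_
  rw [← Finset.mul_prod_erase univ _ (Finset.mem_univ j)]
  simp only [map_mul, map_sub, map_prod, aeval_C]
  have hP : ∏ i ∈ univ.erase j, (aeval x (f i) * aeval x (g i)) ≠ 0 :=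
    Finset.prod_ne_zero_iff.2 fun i _ => mul_ne_zero (hf i) (hg i)
  have h2 := hf j
  have h3 := hg j
  simp only [eq_intCast]
  field_simp

theorem len_Num (f g : Fin n → ℤ[X]) (b : Fin n → ℤ) (d B T : ℕ)
    (hdf : ∀ j, (f j).natDegree ≤ d) (hdg : ∀ j, (g j).natDegree ≤ d)
    (hTf : ∀ j, len (f j) ≤ T) (hTg : ∀ j, len (g j) ≤ T) (hB : ∀ j, |b j| ≤ B) :
    len (Num f g b) ≤ 2 * n * d * B * T ^ (2 * n) := by
  unfold Num
  refine (len_sum _ _).trans ?_
  have key : ∀ j ∈ (univ : Finset (Fin n)),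
      len (C (b j) * (derivative (f j) * g j - f j * derivative (g j)) *
        ∏ i ∈ univ.erase j, (f i * g i)) ≤ 2 * d * B * T ^ (2 * n) := by
    intro j _
    have hTT : (T : ℤ) ^ (2 * n) = (T * T) * ∏ i ∈ univ.erase j, ((T : ℤ) * T) := by
      rw [Finset.mul_prod_erase univ (fun _ => (T : ℤ) * T) (Finset.mem_univ j),
        Finset.prod_const, Finset.card_univ, Fintype.card_fin, pow_mul]
      ring
    have e1 : len (∏ i ∈ univ.erase j, (f i * g i)) ≤ ∏ i ∈ univ.erase j, ((T : ℤ) * T) := by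
      apply len_prod
      intro i _
      exact (len_mul _ _).trans (mul_le_mul (hTf i) (hTg i) (len_nonneg _) (by positivity))
    have e2 : len (derivative (f j) * g j) ≤ d * T * T := by
      refine (len_mul _ _).trans ?_
      have := len_derivative (f j) d (hdf j)
      have h5 : len (derivative (f j)) ≤ d * T :=
        this.trans (mul_le_mul_of_nonneg_left (hTf j) (by positivity))
      exact mul_le_mul h5 (hTg j) (len_nonneg _) (by positivity)
    have e3 : len (f j * derivative (g j)) ≤ T * (d * T) := by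
      refine (len_mul _ _).trans ?_
      have := len_derivative (g j) d (hdg j)
      have h5 : len (derivative (g j)) ≤ d * T :=
        this.trans (mul_le_mul_of_nonneg_left (hTg j) (by positivity))
      exact mul_le_mul (hTf j) h5 (len_nonneg _) (by positivity)
    have e4 : len (derivative (f j) * g j - f j * derivative (g j)) ≤ 2 * d * (T * T) := by
      refine (len_sub _ _).trans ?_
      nlinarith
    have e5 : len (C (b j) * (derivative (f j) * g j - f j * derivative (g j)))
        ≤ B * (2 * d * (T * T)) := by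
      refine (len_C_mul _ _).trans ?_
      exact mul_le_mul (hB j) e4 (len_nonneg _) (by positivity)
    calc len (C (b j) * (derivative (f j) * g j - f j * derivative (g j)) *
        ∏ i ∈ univ.erase j, (f i * g i)) ≤ _ := len_mul _ _
      _ ≤ (B * (2 * d * (T * T))) * ∏ i ∈ univ.erase j, ((T : ℤ) * T) :=
          mul_le_mul e5 e1 (len_nonneg _) (by positivity)
      _ = 2 * d * B * T ^ (2 * n) := by rw [hTT]; ring
  refine (Finset.sum_le_sum key).trans ?_
  rw [Finset.sum_const, Finset.card_univ, Fintype.card_fin, nsmul_eq_mul]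
  apply le_of_eq
  ring

theorem Lam_approx (f g : Fin n → ℤ[X]) (b : Fin n → ℤ) (B T : ℕ)
    (hf : ∀ j, 0 < (f j).leadingCoeff) (hg : ∀ j, (g j).leadingCoeff = (f j).leadingCoeff)
    (hTf : ∀ j, len (f j) ≤ T) (hTg : ∀ j, len (g j) ≤ T) (hB : ∀ j, |b j| ≤ B)
    (x : ℝ) (hx : 1 ≤ x) (hx2 : 2 * (T : ℝ) ≤ x) :
    |Lam f g b x - ((∑ j, b j * ((f j).natDegree - (g j).natDegree : ℤ) : ℤ) : ℝ) * Real.log x|
      ≤ 4 * n * B * T / x := by
  have hx0 : 0 < x := by linarith
  have e : Lam f g b x - ((∑ j, b j * ((f j).natDegree - (g j).natDegree : ℤ) : ℤ) : ℝ) * Real.log x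
      = ∑ j, (b j : ℝ) * ((Real.log (aeval x (f j)) -
          (Real.log (f j).leadingCoeff + (f j).natDegree * Real.log x)) -
        (Real.log (aeval x (g j)) -
          (Real.log (g j).leadingCoeff + (g j).natDegree * Real.log x))) := by
    unfold Lam
    push_cast
    rw [Finset.sum_mul, ← Finset.sum_sub_distrib]
    refine Finset.sum_congr rfl fun j _ => ?_
    rw [hg j]
    ring
  rw [e]
  refine (Finset.abs_sum_le_sum_abs _ _).trans ?_
  have key : ∀ j ∈ (univ : Finset (Fin n)), |(b j : ℝ) * ((Real.log (aeval x (f j)) -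
          (Real.log (f j).leadingCoeff + (f j).natDegree * Real.log x)) -
        (Real.log (aeval x (g j)) -
          (Real.log (g j).leadingCoeff + (g j).natDegree * Real.log x)))| ≤ B * (4 * T / x) := by
    intro j _
    rw [abs_mul]
    have h1 := log_approx (f j) x T hx (by exact_mod_cast hTf j) hx2 (hf j)
    have h2 := log_approx (g j) x T hx (by exact_mod_cast hTg j) hx2 (by rw [hg j]; exact hf j)
    have h3 : |(b j : ℝ)| ≤ B := by exact_mod_cast hB j
    refine mul_le_mul h3 ?_ (abs_nonneg _) (by positivity)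
    refine (abs_sub _ _).trans ?_
    have : 4 * (T : ℝ) / x = 2 * T / x + 2 * T / x := by ring
    rw [this]
    exact add_le_add h1 h2
  refine (Finset.sum_le_sum key).trans ?_
  rw [Finset.sum_const, Finset.card_univ, Fintype.card_fin, nsmul_eq_mul]
  apply le_of_eq
  ring

/-- Integrating a lower bound of the derivative up to infinity. -/
theorem le_of_deriv_lower (F F' : ℝ → ℝ) (H c : ℝ) (s : ℕ) (hH : 0 < H)
    (hF : ∀ x, H ≤ x → HasDerivAt F (F' x) x)
    (hF' : ∀ x, H ≤ x → c / x ^ (s + 2) ≤ F' x)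
    (hlim : Filter.Tendsto F Filter.atTop (nhds 0)) :
    F H ≤ - (c / ((s + 1) * H ^ (s + 1))) := by
  set ψ : ℝ → ℝ := fun x => F x + c / (s + 1) * (x ^ (s + 1))⁻¹ with hψ
  have hder : ∀ x, H ≤ x → HasDerivAt ψ (F' x - c / x ^ (s + 2)) x := by
    intro x hx
    have hx0 : 0 < x := lt_of_lt_of_le hH hx
    have h1 : HasDerivAt (fun x : ℝ => (x ^ (s + 1))⁻¹)
        (-(((s + 1 : ℕ) : ℝ) * x ^ s) / (x ^ (s + 1)) ^ 2) x := by
      have := (hasDerivAt_pow (s + 1) x).fun_inv (by positivity)
      simpa using this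
    have h2 := (hF x hx).fun_add (h1.const_mul (c / (s + 1)))
    refine h2.congr_deriv ?_
    have hx1 := hx0.ne'
    have : ((s : ℝ) + 1) ≠ 0 := by positivity
    push_cast
    field_simp
    ring
  have hmono : MonotoneOn ψ (Set.Ici H) := by
    apply monotoneOn_of_deriv_nonneg (convex_Ici H)
    · intro x hx
      exact (hder x hx).continuousAt.continuousWithinAt
    · intro x hx
      rw [interior_Ici] at hx
      exact (hder x (le_of_lt hx)).differentiableAt.differentiableWithinAt
    · intro x hx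
      rw [interior_Ici] at hx
      rw [(hder x (le_of_lt hx)).deriv]
      linarith [hF' x (le_of_lt hx)]
  have hlim2 : Filter.Tendsto ψ Filter.atTop (nhds 0) := by
    have h1 : Filter.Tendsto (fun x : ℝ => (x ^ (s + 1))⁻¹) Filter.atTop (nhds 0) :=
      Filter.Tendsto.inv_tendsto_atTop (Filter.tendsto_pow_atTop (by omega))
    have h2 := hlim.add (h1.const_mul (c / (s + 1)))
    simpa using h2
  have h3 : ψ H ≤ 0 := by
    apply ge_of_tendsto hlim2
    filter_upwards [Filter.eventually_ge_atTop H] with x hx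
    exact hmono (Set.self_mem_Ici) hx hx
  have h4 : ψ H = F H + c / ((s + 1) * H ^ (s + 1)) := by
    rw [hψ]
    have : ((s : ℝ) + 1) ≠ 0 := by positivity
    field_simp
  linarith

theorem prod_aeval_upper (f g : Fin n → ℤ[X]) (T : ℕ)
    (hTf : ∀ j, len (f j) ≤ T) (hTg : ∀ j, len (g j) ≤ T) (x : ℝ) (hx : 1 ≤ x)
    (hfp : ∀ j, 0 < aeval x (f j)) (hgp : ∀ j, 0 < aeval x (g j)) :
    ∏ i, (aeval x (f i) * aeval x (g i)) ≤
      (T : ℝ) ^ (2 * n) * x ^ (∑ j, ((f j).natDegree + (g j).natDegree)) := by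
  have hx0 : 0 ≤ x := by linarith
  have key : ∀ i ∈ (univ : Finset (Fin n)), aeval x (f i) * aeval x (g i) ≤
      (T : ℝ) ^ 2 * x ^ ((f i).natDegree + (g i).natDegree) := by
    intro i _
    have h1 : aeval x (f i) ≤ T * x ^ (f i).natDegree := by
      refine (le_abs_self _).trans ((aeval_upper (f i) x hx).trans ?_)
      exact mul_le_mul_of_nonneg_right (by exact_mod_cast hTf i) (pow_nonneg hx0 _)
    have h2 : aeval x (g i) ≤ T * x ^ (g i).natDegree := by
      refine (le_abs_self _).trans ((aeval_upper (g i) x hx).trans ?_)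
      exact mul_le_mul_of_nonneg_right (by exact_mod_cast hTg i) (pow_nonneg hx0 _)
    calc aeval x (f i) * aeval x (g i)
        ≤ (T * x ^ (f i).natDegree) * (T * x ^ (g i).natDegree) :=
          mul_le_mul h1 h2 (hgp i).le (by positivity)
      _ = _ := by ring
  refine (Finset.prod_le_prod (fun i _ => (mul_pos (hfp i) (hgp i)).le) key).trans ?_
  rw [Finset.prod_mul_distrib, Finset.prod_const, Finset.card_univ, Fintype.card_fin,
    Finset.prod_pow_eq_pow_sum]
  apply le_of_eq
  ring

/-- Core estimate when the numerator polynomial has positive leading coefficient. -/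
theorem core (f g : Fin n → ℤ[X]) (b : Fin n → ℤ) (T : ℕ) (hT1 : 1 ≤ T)
    (hf : ∀ j, 0 < (f j).leadingCoeff) (hg : ∀ j, 0 < (g j).leadingCoeff)
    (hTf : ∀ j, len (f j) ≤ T) (hTg : ∀ j, len (g j) ≤ T)
    (H : ℝ) (hH2 : 2 * (T : ℝ) ≤ H) (hH3 : 2 * (len (Num f g b) : ℝ) ≤ H)
    (hN : 0 < (Num f g b).leadingCoeff)
    (hlim : Filter.Tendsto (Lam f g b) Filter.atTop (nhds 0)) :
    2 ≤ ∑ j, ((f j).natDegree + (g j).natDegree) ∧
    Lam f g b H ≤ - (1 / (2 * (T : ℝ) ^ (2 * n)) /
      (((∑ j, ((f j).natDegree + (g j).natDegree) : ℕ) : ℝ) - 1) /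
      H ^ (∑ j, ((f j).natDegree + (g j).natDegree) - 1)) := by
  set S := ∑ j, ((f j).natDegree + (g j).natDegree) with hS
  have hTr : (1 : ℝ) ≤ T := by exact_mod_cast hT1
  have hfp : ∀ x : ℝ, H ≤ x → ∀ j, 0 < aeval x (f j) := by
    intro x hx j
    refine lt_of_lt_of_le ?_ (aeval_lower (f j) x (by linarith) ?_ (hf j))
    · have : 0 < x := by linarith
      positivity
    · have : (len (f j) : ℝ) ≤ T := by exact_mod_cast hTf j
      linarith
  have hgp : ∀ x : ℝ, H ≤ x → ∀ j, 0 < aeval x (g j) := by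
    intro x hx j
    refine lt_of_lt_of_le ?_ (aeval_lower (g j) x (by linarith) ?_ (hg j))
    · have : 0 < x := by linarith
      positivity
    · have : (len (g j) : ℝ) ≤ T := by exact_mod_cast hTg j
      linarith
  set F' : ℝ → ℝ := fun x => aeval x (Num f g b) / ∏ i, (aeval x (f i) * aeval x (g i)) with hF'
  have hder : ∀ x, H ≤ x → HasDerivAt (Lam f g b) (F' x) x := fun x hx =>
    hasDerivAt_Lam f g b x (fun j => (hfp x hx j).ne') (fun j => (hgp x hx j).ne')
  set c : ℝ := 1 / (2 * (T : ℝ) ^ (2 * n)) with hc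
  have hc0 : 0 < c := by positivity
  have hlow : ∀ x, H ≤ x → c / x ^ S ≤ F' x := by
    intro x hx
    have hx1 : 1 ≤ x := by linarith
    have hx0 : 0 < x := by linarith
    have h1 := aeval_lower (Num f g b) x hx1 (by linarith) hN
    have h2 : (1 : ℝ) / 2 ≤ aeval x (Num f g b) := by
      have : 1 ≤ x ^ (Num f g b).natDegree := one_le_pow₀ hx1
      linarith
    have h3 := prod_aeval_upper f g T hTf hTg x hx1 (hfp x hx) (hgp x hx)
    have h4 : 0 < ∏ i, (aeval x (f i) * aeval x (g i)) :=
      Finset.prod_pos fun i _ => mul_pos (hfp x hx i) (hgp x hx i)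
    rw [hF', hc]
    calc 1 / (2 * (T : ℝ) ^ (2 * n)) / x ^ S = (1 / 2) / ((T : ℝ) ^ (2 * n) * x ^ S) := by
          field_simp
      _ ≤ (1 / 2) / ∏ i, (aeval x (f i) * aeval x (g i)) :=
          div_le_div_of_nonneg_left (by norm_num) h4 h3
      _ ≤ _ := div_le_div_of_nonneg_right h2 h4.le
  by_cases hS2 : 2 ≤ S
  · refine ⟨hS2, ?_⟩
    obtain ⟨s, hs⟩ := Nat.exists_eq_add_of_le hS2
    have h5 := le_of_deriv_lower (Lam f g b) F' H c s (by linarith) hder
      (fun x hx => by have := hlow x hx; rwa [hs, add_comm] at this) hlim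
    have e1 : S - 1 = s + 1 := by omega
    have e2 : ((S : ℕ) : ℝ) - 1 = (s : ℝ) + 1 := by rw [hs]; push_cast; ring
    rw [e1, e2, div_div]
    exact h5
  · exfalso
    have h6 : ∀ M, H ≤ M → Lam f g b M ≤ -c := by
      intro M hM
      have hM0 : 0 < M := by linarith
      have h7 := le_of_deriv_lower (Lam f g b) F' M (c * M) 0 hM0
        (fun x hx => hder x (hM.trans hx)) (fun x hx => by
          have hx0 : 0 < x := by linarith
          have hx1 : 1 ≤ x := by linarith
          refine le_trans ?_ (hlow x (hM.trans hx))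
          have h8 : x ^ S ≤ x := by
            calc x ^ S ≤ x ^ 1 := pow_le_pow_right₀ hx1 (by omega)
              _ = x := pow_one x
          rw [div_le_div_iff₀ (by positivity) (by positivity)]
          have h9 : M * x ^ S ≤ x ^ (0 + 2) := by
            have : x ^ (0 + 2) = x * x := by ring
            rw [this]
            exact mul_le_mul hx h8 (by positivity) hx0.le
          calc c * M * x ^ S = c * (M * x ^ S) := by ring
            _ ≤ c * x ^ (0 + 2) := mul_le_mul_of_nonneg_left h9 hc0.le) hlim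
      have h10 : c * M / (((0 : ℕ) : ℝ) + 1) / M = c := by field_simp; norm_num
      have h11 : c * M / ((((0 : ℕ) : ℝ) + 1) * M ^ (0 + 1)) = c := by
        field_simp
        norm_num
      rw [h11] at h7
      exact h7
    have h12 : (0 : ℝ) ≤ -c := by
      apply le_of_tendsto hlim
      filter_upwards [Filter.eventually_ge_atTop H] with x hx
      exact h6 x hx
    linarith

theorem Lam_neg (f g : Fin n → ℤ[X]) (b : Fin n → ℤ) :
    Lam f g (fun j => -b j) = fun x => - Lam f g b x := by
  funext x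
  unfold Lam
  rw [← Finset.sum_neg_distrib]
  refine Finset.sum_congr rfl fun j _ => ?_
  push_cast
  ring

theorem Num_neg (f g : Fin n → ℤ[X]) (b : Fin n → ℤ) :
    Num f g (fun j => -b j) = - Num f g b := by
  unfold Num
  rw [← Finset.sum_neg_distrib]
  refine Finset.sum_congr rfl fun j _ => ?_
  rw [C_neg]
  ring

theorem aeval_natCast_eq (P : ℤ[X]) (H : ℕ) :
    aeval (H : ℝ) P = ((P.eval (H : ℤ) : ℤ) : ℝ) := by
  have := Polynomial.aeval_algebraMap_apply ℝ (H : ℤ) P
  simpa [Polynomial.coe_aeval_eq_eval] using this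

theorem height_lower (F G : ℤ) (hF : 0 < F) (hG : 0 < G) (T : ℕ) (hgcd : Int.gcd F G ≤ T) :
    (F : ℝ) * G ≤ (T : ℝ) ^ 2 *
      ((max ((F : ℚ) / G).num.natAbs ((F : ℚ) / G).den : ℕ) : ℝ) ^ 2 := by
  obtain ⟨c, h1, h2⟩ := Rat.exists_eq_mul_div_num_and_eq_mul_div_den F hG.ne'
  set q : ℚ := (F : ℚ) / G with hq
  have hc1 : c ∣ F := ⟨_, h1⟩
  have hc2 : c ∣ G := ⟨_, h2⟩
  have hcT : |c| ≤ T := by
    have h3 : c ∣ (Int.gcd F G : ℤ) := Int.dvd_coe_gcd hc1 hc2
    have h4 : (0 : ℤ) < (Int.gcd F G : ℤ) := by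
      exact_mod_cast Int.gcd_pos_of_ne_zero_left _ hF.ne'
    have h5 : |c| ≤ (Int.gcd F G : ℤ) := Int.le_of_dvd h4 (by rwa [abs_dvd])
    exact h5.trans (by exact_mod_cast hgcd)
  have hFle : F ≤ T * (q.num.natAbs : ℤ) := by
    calc F ≤ |F| := le_abs_self _
      _ = |c| * |q.num| := by rw [← abs_mul, ← h1]
      _ ≤ T * |q.num| := mul_le_mul_of_nonneg_right hcT (abs_nonneg _)
      _ = T * (q.num.natAbs : ℤ) := by rw [Int.natCast_natAbs]
  have hGle : G ≤ T * (q.den : ℤ) := by
    calc G ≤ |G| := le_abs_self _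
      _ = |c| * |(q.den : ℤ)| := by rw [← abs_mul, ← h2]
      _ ≤ T * |(q.den : ℤ)| := mul_le_mul_of_nonneg_right hcT (abs_nonneg _)
      _ = T * (q.den : ℤ) := by rw [abs_of_nonneg (by positivity)]
  have hFr : (F : ℝ) ≤ T * ((max q.num.natAbs q.den : ℕ) : ℝ) := by
    have h6 : (F : ℝ) ≤ T * (q.num.natAbs : ℝ) := by
      calc (F : ℝ) ≤ ((T * (q.num.natAbs : ℤ) : ℤ) : ℝ) := Int.cast_le.2 hFle
        _ = T * (q.num.natAbs : ℝ) := by rw [Int.cast_mul, Int.cast_natCast, Int.cast_natCast]
    refine h6.trans (mul_le_mul_of_nonneg_left ?_ (by positivity))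
    exact_mod_cast le_max_left _ _
  have hGr : (G : ℝ) ≤ T * ((max q.num.natAbs q.den : ℕ) : ℝ) := by
    have h6 : (G : ℝ) ≤ T * (q.den : ℝ) := by exact_mod_cast hGle
    refine h6.trans (mul_le_mul_of_nonneg_left ?_ (by positivity))
    exact_mod_cast le_max_right _ _
  have hG0 : (0 : ℝ) ≤ G := by exact_mod_cast hG.le
  calc (F : ℝ) * G ≤ (T * ((max q.num.natAbs q.den : ℕ) : ℝ)) *
        (T * ((max q.num.natAbs q.den : ℕ) : ℝ)) := mul_le_mul hFr hGr hG0 (by positivity)
    _ = _ := by ring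

/-- The right side of Lang's inequality with `C = 1` is at most `1 / ∏ A_j ^ 2`. -/
theorem lang_le (b : Fin n → ℤ) (a : Fin n → ℚ) (ε : ℝ) (hε : 0 ≤ ε) :
    (((Finset.univ.sup fun j => max (b j).natAbs 1) : ℕ) : ℝ) /
      ((∏ j, (((max (b j).natAbs 1 : ℕ)) : ℝ)) *
        ∏ j, (((max (a j).num.natAbs (a j).den : ℕ)) : ℝ) ^ 2) ^ (1 + ε) ≤
    1 / ∏ j, (((max (a j).num.natAbs (a j).den : ℕ)) : ℝ) ^ 2 := by
  set PB : ℝ := ∏ j, (((max (b j).natAbs 1 : ℕ)) : ℝ) with hPB
  set PA : ℝ := ∏ j, (((max (a j).num.natAbs (a j).den : ℕ)) : ℝ) ^ 2 with hPA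
  have h1 : (((Finset.univ.sup fun j => max (b j).natAbs 1) : ℕ) : ℝ) ≤ PB := by
    rw [hPB, ← Nat.cast_prod]
    apply Nat.cast_le.2
    apply Finset.sup_le
    intro j _
    apply Nat.le_of_dvd
    · exact Finset.prod_pos fun i _ => by positivity
    · exact Finset.dvd_prod_of_mem (fun j => max (b j).natAbs 1) (Finset.mem_univ j)
  have h2 : 1 ≤ PB := by
    rw [hPB, ← Nat.cast_prod]
    have : 1 ≤ ∏ j, max (b j).natAbs 1 :=
      Nat.succ_le_of_lt (Finset.prod_pos fun i _ => by positivity)
    exact_mod_cast this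
  have h3 : 1 ≤ PA := by
    rw [hPA]
    have h4 : ∀ j ∈ (univ : Finset (Fin n)),
        (1 : ℝ) ≤ (((max (a j).num.natAbs (a j).den : ℕ)) : ℝ) ^ 2 := by
      intro j _
      have : 1 ≤ max (a j).num.natAbs (a j).den := le_max_of_le_right (a j).pos
      exact one_le_pow₀ (by exact_mod_cast this)
    calc (1 : ℝ) = ∏ j ∈ (univ : Finset (Fin n)), (1 : ℝ) := by simp
      _ ≤ _ := Finset.prod_le_prod (fun _ _ => by norm_num) h4
  have h5 : 1 ≤ PB * PA := by nlinarith
  have h6 : PB * PA ≤ (PB * PA) ^ (1 + ε) := by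
    calc PB * PA = (PB * PA) ^ (1 : ℝ) := (Real.rpow_one _).symm
      _ ≤ _ := Real.rpow_le_rpow_of_exponent_le h5 (by linarith)
  calc (((Finset.univ.sup fun j => max (b j).natAbs 1) : ℕ) : ℝ) / (PB * PA) ^ (1 + ε)
      ≤ PB / (PB * PA) ^ (1 + ε) := div_le_div_of_nonneg_right h1 (by positivity)
    _ ≤ PB / (PB * PA) := div_le_div_of_nonneg_left (by linarith) (by linarith) h6
    _ = 1 / PA := by
      have : PB ≠ 0 := by linarith
      field_simp

/-- Main theorem. -/
theorem result (n d B T H : ℕ) (f g : Fin n → ℤ[X]) (b : Fin n → ℤ)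
    (hf : ∀ j, 0 < (f j).leadingCoeff) (hg : ∀ j, (g j).leadingCoeff = (f j).leadingCoeff)
    (hdf : ∀ j, (f j).natDegree ≤ d) (hdg : ∀ j, (g j).natDegree ≤ d)
    (hTf : ∀ j, len (f j) ≤ T) (hTg : ∀ j, len (g j) ≤ T)
    (hB : ∀ j, |b j| ≤ B)
    (hgcd : ∀ j, Int.gcd ((f j).eval (H : ℤ)) ((g j).eval (H : ℤ)) ≤ T)
    (hH : 4 * n * d * B * (2 * T) ^ (4 * n) ≤ H)
    (a : Fin n → ℚ)
    (ha : ∀ j, a j = (((f j).eval (H : ℤ) : ℤ) : ℚ) / (((g j).eval (H : ℤ) : ℤ) : ℚ))
    (hΛ : ∑ j, (b j : ℝ) * Real.log (a j : ℝ) ≠ 0) :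
    (∀ j, 0 < a j) ∧
    1 / (4 * n * d * (T : ℝ) ^ (2 * n) *
        (H : ℝ) ^ (∑ j, ((f j).natDegree + (g j).natDegree) - 1)) ≤
      |∑ j, (b j : ℝ) * Real.log (a j : ℝ)| ∧
    ∀ ε : ℝ, 0 ≤ ε →
      (((Finset.univ.sup fun j => max (b j).natAbs 1) : ℕ) : ℝ) /
          ((∏ j, (((max (b j).natAbs 1 : ℕ)) : ℝ)) *
            ∏ j, (((max (a j).num.natAbs (a j).den : ℕ)) : ℝ) ^ 2) ^ (1 + ε)
        < |∑ j, (b j : ℝ) * Real.log (a j : ℝ)| := by
  -- degenerate parameters
  have hn : 1 ≤ n := by
    rcases Nat.eq_zero_or_pos n with h | h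
    · subst h
      exact absurd (by simp) hΛ
    · exact h
  have hB1 : 1 ≤ B := by
    rcases Nat.eq_zero_or_pos B with h | h
    · exfalso
      apply hΛ
      apply Finset.sum_eq_zero
      intro j _
      have : b j = 0 := by
        have := hB j
        rw [h] at this
        simpa using this
      rw [this]
      simp
    · exact h
  have hT1 : 1 ≤ T := by
    have h1 := abs_lead_le_len (f ⟨0, hn⟩)
    have h2 := hf ⟨0, hn⟩
    have h3 := hTf ⟨0, hn⟩
    rw [abs_of_pos h2] at h1
    have : (1 : ℤ) ≤ T := by linarith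
    exact_mod_cast this
  have hd1 : 1 ≤ d := by
    rcases Nat.eq_zero_or_pos d with h | h
    · exfalso
      apply hΛ
      apply Finset.sum_eq_zero
      intro j _
      have h1 : f j = C ((f j).coeff 0) := Polynomial.eq_C_of_natDegree_eq_zero (by
        have := hdf j
        omega)
      have h2 : g j = C ((g j).coeff 0) := Polynomial.eq_C_of_natDegree_eq_zero (by
        have := hdg j
        omega)
      have h3 : (f j).coeff 0 = (g j).coeff 0 := by
        have h4 := hg j
        rw [h1, h2, Polynomial.leadingCoeff_C, Polynomial.leadingCoeff_C] at h4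
        exact h4.symm
      have h5 : f j = g j := by rw [h1, h2, h3]
      have h6 : a j = 1 ∨ a j = 0 := by
        rw [ha j, h5]
        by_cases h7 : (((g j).eval (H : ℤ) : ℤ) : ℚ) = 0
        · right
          rw [h7]
          simp
        · left
          exact div_self h7
      rcases h6 with h6 | h6 <;> rw [h6] <;> simp
    · exact h
  -- numerical consequences of the size condition
  have hpow1 : 1 ≤ (2 * T) ^ (4 * n) := Nat.one_le_pow _ _ (by omega)
  have hpow2 : 2 * T ≤ (2 * T) ^ (4 * n) := Nat.le_self_pow (by omega) _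
  have hpow3 : 16 ≤ (2 * T) ^ (4 * n) := by
    calc 16 = 2 ^ 4 := by norm_num
      _ ≤ (2 * T) ^ 4 := Nat.pow_le_pow_left (by omega) _
      _ ≤ (2 * T) ^ (4 * n) := Nat.pow_le_pow_right (by omega) (by omega)
  have hnd : 1 ≤ n * d * B := Nat.one_le_iff_ne_zero.2 (by positivity)
  have hH' : 4 * (n * d * B) * (2 * T) ^ (4 * n) ≤ H := by
    calc _ = 4 * n * d * B * (2 * T) ^ (4 * n) := by ring
      _ ≤ H := hH
  have hH64 : 64 ≤ H := by
    calc 64 = 4 * 1 * 16 := by norm_num
      _ ≤ 4 * (n * d * B) * (2 * T) ^ (4 * n) := by gcongr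
      _ ≤ H := hH'
  have hH2T : 2 * T ≤ H := by
    calc 2 * T = 1 * (2 * T) := by ring
      _ ≤ 4 * (n * d * B) * (2 * T) ^ (4 * n) := by
        apply Nat.mul_le_mul _ hpow2
        omega
      _ ≤ H := hH'
  have hHr : (64 : ℝ) ≤ H := by exact_mod_cast hH64
  have hH2Tr : 2 * (T : ℝ) ≤ H := by exact_mod_cast hH2T
  have hTr : (1 : ℝ) ≤ T := by exact_mod_cast hT1
  have hgl : ∀ j, 0 < (g j).leadingCoeff := fun j => by rw [hg j]; exact hf j
  -- identify the form
  have hfp : ∀ j, 0 < aeval (H : ℝ) (f j) := by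
    intro j
    refine lt_of_lt_of_le ?_ (aeval_lower (f j) H (by linarith) ?_ (hf j))
    · positivity
    · have : (len (f j) : ℝ) ≤ T := by exact_mod_cast hTf j
      linarith
  have hgp : ∀ j, 0 < aeval (H : ℝ) (g j) := by
    intro j
    refine lt_of_lt_of_le ?_ (aeval_lower (g j) H (by linarith) ?_ (hgl j))
    · positivity
    · have : (len (g j) : ℝ) ≤ T := by exact_mod_cast hTg j
      linarith
  have haR : ∀ j, ((a j : ℚ) : ℝ) = aeval (H : ℝ) (f j) / aeval (H : ℝ) (g j) := by
    intro j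
    rw [ha j, aeval_natCast_eq, aeval_natCast_eq]
    push_cast
    rfl
  have hLam : ∑ j, (b j : ℝ) * Real.log (a j : ℝ) = Lam f g b H := by
    unfold Lam
    refine Finset.sum_congr rfl fun j _ => ?_
    rw [haR j, Real.log_div (hfp j).ne' (hgp j).ne']
  have hapos : ∀ j, 0 < a j := by
    intro j
    have : (0 : ℝ) < (a j : ℝ) := by
      rw [haR j]
      exact div_pos (hfp j) (hgp j)
    exact_mod_cast this
  refine ⟨hapos, ?_⟩
  rw [hLam] at hΛ ⊢
  set S := ∑ j, ((f j).natDegree + (g j).natDegree) with hS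
  set PA : ℝ := ∏ j, (((max (a j).num.natAbs (a j).den : ℕ)) : ℝ) ^ 2 with hPA
  have hPA1 : 1 ≤ PA := by
    rw [hPA]
    have h4 : ∀ j ∈ (univ : Finset (Fin n)),
        (1 : ℝ) ≤ (((max (a j).num.natAbs (a j).den : ℕ)) : ℝ) ^ 2 := by
      intro j _
      have : 1 ≤ max (a j).num.natAbs (a j).den := le_max_of_le_right (a j).pos
      exact one_le_pow₀ (by exact_mod_cast this)
    calc (1 : ℝ) = ∏ j ∈ (univ : Finset (Fin n)), (1 : ℝ) := by simp
      _ ≤ _ := Finset.prod_le_prod (fun _ _ => by norm_num) h4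
  have hnr : (1 : ℝ) ≤ n := by exact_mod_cast hn
  have hdr : (1 : ℝ) ≤ d := by exact_mod_cast hd1
  have hden : 1 ≤ 4 * n * d * (T : ℝ) ^ (2 * n) * (H : ℝ) ^ (S - 1) := by
    have h1 : (1 : ℝ) ≤ (T : ℝ) ^ (2 * n) := one_le_pow₀ hTr
    have h2 : (1 : ℝ) ≤ (H : ℝ) ^ (S - 1) := one_le_pow₀ (by linarith)
    have h3 : (1 : ℝ) ≤ 4 * n * d := by nlinarith
    exact one_le_mul_of_one_le_of_one_le (one_le_mul_of_one_le_of_one_le h3 h1) h2
  by_cases hκ : (∑ j, b j * ((f j).natDegree - (g j).natDegree : ℤ) : ℤ) = 0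
  · -- the form tends to zero along the family
    have happ : ∀ x : ℝ, (H : ℝ) ≤ x → |Lam f g b x| ≤ 4 * n * B * T / x := by
      intro x hx
      have := Lam_approx f g b B T hf hg hTf hTg hB x (by linarith) (by linarith)
      rw [hκ] at this
      simpa using this
    have hlim : Filter.Tendsto (Lam f g b) Filter.atTop (nhds 0) := by
      apply squeeze_zero_norm' (a := fun x : ℝ => 4 * n * B * T / x)
      · filter_upwards [Filter.eventually_ge_atTop (H : ℝ)] with x hx
        rw [Real.norm_eq_abs]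
        exact happ x hx
      · exact Filter.Tendsto.div_atTop tendsto_const_nhds Filter.tendsto_id
    have hlenN : 2 * (len (Num f g b) : ℝ) ≤ H := by
      have h1 := len_Num f g b d B T hdf hdg hTf hTg hB
      have h2 : 2 * len (Num f g b) ≤ (H : ℤ) := by
        calc 2 * len (Num f g b) ≤ 2 * (2 * n * d * B * T ^ (2 * n)) := by linarith
          _ = ((4 * (n * d * B) * T ^ (2 * n) : ℕ) : ℤ) := by push_cast; ring
          _ ≤ ((4 * (n * d * B) * (2 * T) ^ (4 * n) : ℕ) : ℤ) := by
            apply Nat.cast_le.2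
            apply Nat.mul_le_mul_left
            calc T ^ (2 * n) ≤ (2 * T) ^ (2 * n) := Nat.pow_le_pow_left (by omega) _
              _ ≤ (2 * T) ^ (4 * n) := Nat.pow_le_pow_right (by omega) (by omega)
          _ ≤ (H : ℤ) := by exact_mod_cast hH'
      exact_mod_cast h2
    have hN : Num f g b ≠ 0 := by
      intro hN0
      apply hΛ
      have hder : ∀ x : ℝ, (H : ℝ) ≤ x → HasDerivAt (Lam f g b) 0 x := by
        intro x hx
        have hx0 : 0 < x := by linarith
        have h1 := hasDerivAt_Lam f g b x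
          (fun j => (lt_of_lt_of_le (by positivity) (aeval_lower (f j) x (by linarith)
            (by
              have : (len (f j) : ℝ) ≤ T := by exact_mod_cast hTf j
              linarith) (hf j))).ne')
          (fun j => (lt_of_lt_of_le (by positivity) (aeval_lower (g j) x (by linarith)
            (by
              have : (len (g j) : ℝ) ≤ T := by exact_mod_cast hTg j
              linarith) (hgl j))).ne')
        rw [hN0] at h1
        simpa using h1
      have h2 := le_of_deriv_lower (Lam f g b) (fun _ => 0) H 0 0 (by linarith) hder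
        (fun x _ => by simp) hlim
      have hlim2 : Filter.Tendsto (fun x => - Lam f g b x) Filter.atTop (nhds 0) := by
        simpa using hlim.neg
      have h3 := le_of_deriv_lower (fun x => - Lam f g b x) (fun _ => 0) H 0 0 (by linarith)
        (fun x hx => by simpa using (hder x hx).fun_neg)
        (fun x _ => by simp) hlim2
      simp at h2 h3
      linarith
    -- the two signs
    have hcore : 2 ≤ S ∧ 1 / (2 * (T : ℝ) ^ (2 * n)) / (((S : ℕ) : ℝ) - 1) /
        (H : ℝ) ^ (S - 1) ≤ |Lam f g b H| := by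
      rcases lt_or_gt_of_ne (Polynomial.leadingCoeff_ne_zero.2 hN) with h | h
      · have h1 := core f g (fun j => -b j) T hT1 hf hgl hTf hTg H hH2Tr
          (by rw [Num_neg, len_neg]; exact hlenN)
          (by rw [Num_neg, Polynomial.leadingCoeff_neg]; linarith)
          (by rw [Lam_neg]; simpa using hlim.neg)
        refine ⟨h1.1, ?_⟩
        have h2 := h1.2
        rw [Lam_neg, ← hS] at h2
        have h3 : 1 / (2 * (T : ℝ) ^ (2 * n)) / (((S : ℕ) : ℝ) - 1) /
          (H : ℝ) ^ (S - 1) ≤ Lam f g b H := le_of_neg_le_neg h2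
        exact h3.trans (le_abs_self _)
      · have h1 := core f g b T hT1 hf hgl hTf hTg H hH2Tr hlenN h hlim
        refine ⟨h1.1, ?_⟩
        have h2 := h1.2
        rw [← hS] at h2
        have h3 : 1 / (2 * (T : ℝ) ^ (2 * n)) / (((S : ℕ) : ℝ) - 1) /
          (H : ℝ) ^ (S - 1) ≤ - Lam f g b H := le_neg_of_le_neg h2
        exact h3.trans (neg_le_abs _)
    obtain ⟨hS2, hlow⟩ := hcore
    have hSr : (2 : ℝ) ≤ (S : ℝ) := by exact_mod_cast hS2
    have hSle : (S : ℝ) ≤ 2 * n * d := by
      have : S ≤ 2 * n * d := by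
        calc S ≤ ∑ j : Fin n, (d + d) := Finset.sum_le_sum fun j _ => add_le_add (hdf j) (hdg j)
          _ = 2 * n * d := by simp; ring
      exact_mod_cast this
    have hHS : (0 : ℝ) < (H : ℝ) ^ (S - 1) := by positivity
    have hTn : (0 : ℝ) < (T : ℝ) ^ (2 * n) := by positivity
    have hlow' : 1 / (2 * (T : ℝ) ^ (2 * n)) / (((S : ℕ) : ℝ) - 1) / (H : ℝ) ^ (S - 1)
        = 1 / (2 * ((S : ℝ) - 1) * (T : ℝ) ^ (2 * n) * (H : ℝ) ^ (S - 1)) := by
      have : (S : ℝ) - 1 ≠ 0 := by linarith
      field_simp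
    rw [hlow'] at hlow
    have hpos : 0 < 2 * ((S : ℝ) - 1) * (T : ℝ) ^ (2 * n) * (H : ℝ) ^ (S - 1) := by
      have : 0 < (S : ℝ) - 1 := by linarith
      positivity
    refine ⟨?_, ?_⟩
    · refine le_trans ?_ hlow
      apply one_div_le_one_div_of_le hpos
      have h1 : 2 * ((S : ℝ) - 1) ≤ 4 * n * d := by linarith
      gcongr
    · intro ε hε
      refine lt_of_le_of_lt (lang_le b a ε hε) ?_
      rw [← hPA]
      refine lt_of_lt_of_le ?_ hlow
      -- lower bound for the product of the heights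
      have hPAlow : (H : ℝ) ^ S ≤ (2 * (T : ℝ)) ^ (2 * n) * PA := by
        have hj : ∀ j ∈ (univ : Finset (Fin n)),
            (H : ℝ) ^ ((f j).natDegree + (g j).natDegree) ≤ (2 * (T : ℝ)) ^ 2 *
              (((max (a j).num.natAbs (a j).den : ℕ)) : ℝ) ^ 2 := by
          intro j _
          have h1 := aeval_lower (f j) H (by linarith) (by
            have : (len (f j) : ℝ) ≤ T := by exact_mod_cast hTf j
            linarith) (hf j)
          have h2 := aeval_lower (g j) H (by linarith) (by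
            have : (len (g j) : ℝ) ≤ T := by exact_mod_cast hTg j
            linarith) (hgl j)
          have hF : 0 < (f j).eval (H : ℤ) := by
            have := hfp j
            rw [aeval_natCast_eq] at this
            exact_mod_cast this
          have hG : 0 < (g j).eval (H : ℤ) := by
            have := hgp j
            rw [aeval_natCast_eq] at this
            exact_mod_cast this
          have h3 := height_lower _ _ hF hG T (hgcd j)
          rw [← ha j, ← aeval_natCast_eq, ← aeval_natCast_eq] at h3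
          have h4 : (H : ℝ) ^ (f j).natDegree / 2 * ((H : ℝ) ^ (g j).natDegree / 2) ≤
              aeval (H : ℝ) (f j) * aeval (H : ℝ) (g j) :=
            mul_le_mul h1 h2 (by positivity) (hfp j).le
          rw [pow_add]
          nlinarith
        calc (H : ℝ) ^ S = ∏ j, (H : ℝ) ^ ((f j).natDegree + (g j).natDegree) := by
              rw [Finset.prod_pow_eq_pow_sum]
          _ ≤ ∏ j, ((2 * (T : ℝ)) ^ 2 * (((max (a j).num.natAbs (a j).den : ℕ)) : ℝ) ^ 2) :=
              Finset.prod_le_prod (fun _ _ => by positivity) hj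
          _ = (2 * (T : ℝ)) ^ (2 * n) * PA := by
              rw [Finset.prod_mul_distrib, Finset.prod_const, Finset.card_univ,
                Fintype.card_fin, ← pow_mul]
      have hPA0 : 0 < PA := by linarith
      rw [div_lt_div_iff₀ hPA0 hpos, one_mul, one_mul]
      have hHS' : (H : ℝ) ^ S = (H : ℝ) ^ (S - 1) * H := by
        rw [← pow_succ]
        congr 1
        omega
      have hX : (0 : ℝ) < (2 * (T : ℝ)) ^ (2 * n) := by positivity
      have hfin : (2 * (T : ℝ)) ^ (2 * n) * (2 * ((S : ℝ) - 1) * (T : ℝ) ^ (2 * n)) < H := by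
        have h1 : (2 * (T : ℝ)) ^ (2 * n) * (2 * ((S : ℝ) - 1) * (T : ℝ) ^ (2 * n)) <
            (2 * (T : ℝ)) ^ (2 * n) * (4 * n * d * (T : ℝ) ^ (2 * n)) := by
          apply mul_lt_mul_of_pos_left _ hX
          apply mul_lt_mul_of_pos_right _ hTn
          linarith
        have h2 : (2 * (T : ℝ)) ^ (2 * n) * (4 * n * d * (T : ℝ) ^ (2 * n)) ≤ H := by
          have h3 : (2 * T) ^ (2 * n) * (4 * n * d * T ^ (2 * n)) ≤ H := by
            calc (2 * T) ^ (2 * n) * (4 * n * d * T ^ (2 * n))
                ≤ (2 * T) ^ (2 * n) * (4 * (n * d * B) * (2 * T) ^ (2 * n)) := by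
                  apply Nat.mul_le_mul_left
                  apply Nat.mul_le_mul
                  · calc 4 * n * d = 4 * n * d * 1 := by ring
                      _ ≤ 4 * n * d * B := Nat.mul_le_mul_left _ hB1
                      _ = 4 * (n * d * B) := by ring
                  · exact Nat.pow_le_pow_left (by omega) _
              _ = 4 * (n * d * B) * (2 * T) ^ (4 * n) := by
                  have : 4 * n = 2 * n + 2 * n := by ring
                  rw [this, pow_add]
                  ring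
              _ ≤ H := hH'
          exact_mod_cast h3
        linarith
      have h5 : (2 * (T : ℝ)) ^ (2 * n) *
          (2 * ((S : ℝ) - 1) * (T : ℝ) ^ (2 * n) * (H : ℝ) ^ (S - 1)) <
          (2 * (T : ℝ)) ^ (2 * n) * PA := by
        calc (2 * (T : ℝ)) ^ (2 * n) *
            (2 * ((S : ℝ) - 1) * (T : ℝ) ^ (2 * n) * (H : ℝ) ^ (S - 1))
            = (2 * (T : ℝ)) ^ (2 * n) * (2 * ((S : ℝ) - 1) * (T : ℝ) ^ (2 * n)) *
              (H : ℝ) ^ (S - 1) := by ring
          _ < H * (H : ℝ) ^ (S - 1) := mul_lt_mul_of_pos_right hfin hHS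
          _ = (H : ℝ) ^ S := by rw [hHS']; ring
          _ ≤ _ := hPAlow
      exact lt_of_mul_lt_mul_left h5 hX.le
  · -- the form is large
    have h1 := Lam_approx f g b B T hf hg hTf hTg hB (H : ℝ) (by linarith) hH2Tr
    set κ : ℤ := ∑ j, b j * ((f j).natDegree - (g j).natDegree : ℤ) with hκd
    have h2 : (1 : ℝ) ≤ |(κ : ℝ)| := by
      have : (1 : ℤ) ≤ |κ| := Int.one_le_abs hκ
      exact_mod_cast this
    have h3 : 4 * (n : ℝ) * B * T / H ≤ 1 := by
      rw [div_le_one (by linarith)]
      have h4 : 4 * n * B * T ≤ H := by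
        calc 4 * n * B * T ≤ 4 * (n * d * B) * (2 * T) ^ (4 * n) := by
              apply Nat.mul_le_mul
              · calc 4 * n * B = 4 * (n * 1 * B) := by ring
                  _ ≤ 4 * (n * d * B) := by gcongr
              · omega
          _ ≤ H := hH'
      exact_mod_cast h4
    have h5 : (4 : ℝ) ≤ Real.log H := by
      have h6 : Real.log ((2 : ℝ) ^ 6) ≤ Real.log H :=
        Real.log_le_log (by norm_num) (by norm_num; linarith)
      rw [Real.log_pow] at h6
      have := Real.log_two_gt_d9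
      push_cast at h6
      linarith
    have h6 : 4 ≤ |(κ : ℝ) * Real.log H| := by
      rw [abs_mul, abs_of_nonneg (by linarith : 0 ≤ Real.log H)]
      nlinarith
    have h7 : 1 < |Lam f g b H| := by
      have h8 : |(κ : ℝ) * Real.log H| ≤ |Lam f g b H| + |Lam f g b H - κ * Real.log H| := by
        have := abs_sub (Lam f g b H) (Lam f g b H - κ * Real.log H)
        simpa using this
      linarith
    refine ⟨?_, ?_⟩
    · refine le_trans ?_ h7.le
      rw [div_le_one (by linarith)]
      exact hden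
    · intro ε hε
      refine lt_of_le_of_lt (lang_le b a ε hε) ?_
      rw [← hPA]
      refine lt_of_le_of_lt ?_ h7
      rw [div_le_one (by linarith)]
      exact hPA1

end Pool.Agent.Results.MP_90c6bd_nt.PolynomialFamilies
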